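import Mathlib

/-!
FR: module UP, part B: the one-body operator on mean-zero vectors and the arithmetic.
-/

open Finset

namespace Pool.Agent.Helper64_FR.H47

variable {n : ℕ}

/-- the deviation from the mean on the block -/
noncomputable def dv (B : Finset (Fin n)) (x : Fin n → ℝ) : Fin n → ℝ :=
  fun i => if i ∈ B then x i - (∑ j ∈ B, x j) / B.card else 0

theorem dv_of_notMem {B : Finset (Fin n)} {i : Fin n} (h : i ∉ B) (x : Fin n → ℝ) :
    dv B x i = 0 := if_neg h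

theorem dv_of_mem {B : Finset (Fin n)} {i : Fin n} (h : i ∈ B) (x : Fin n → ℝ) :
    dv B x i = x i - (∑ j ∈ B, x j) / B.card := if_pos h

theorem sum_dv_block (B : Finset (Fin n)) (x : Fin n → ℝ) : ∑ i ∈ B, dv B x i = 0 := by
  rw [Finset.sum_congr rfl fun i hi => dv_of_mem hi x, Finset.sum_sub_distrib, Finset.sum_const,
    nsmul_eq_mul]
  by_cases h : B = ∅
  · simp [h]
  · have : (B.card : ℝ) ≠ 0 := by
      rw [Nat.cast_ne_zero]
      exact Finset.card_ne_zero.2 (Finset.nonempty_iff_ne_empty.2 h)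
    field_simp
    ring

theorem sum_dv_mul (B : Finset (Fin n)) (x y : Fin n → ℝ) :
    ∑ i, dv B x i * y i = ∑ i ∈ B, dv B x i * y i := by
  symm
  apply Finset.sum_subset (Finset.subset_univ B)
  intro i _ hi
  rw [dv_of_notMem hi, zero_mul]

theorem sum_dv (B : Finset (Fin n)) (x : Fin n → ℝ) : ∑ i, dv B x i = 0 := by
  have h := sum_dv_mul B x (fun _ => 1)
  simp only [mul_one] at h
  rw [h, sum_dv_block]

theorem dv_mul_eq (B : Finset (Fin n)) (x y : Fin n → ℝ) :
    ∑ i, dv B x i * y i = ∑ i, dv B x i * dv B y i := by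
  rw [sum_dv_mul, sum_dv_mul]
  have h : ∑ i ∈ B, dv B x i * y i - ∑ i ∈ B, dv B x i * dv B y i =
      (∑ i ∈ B, dv B x i) * ((∑ j ∈ B, y j) / B.card) := by
    rw [← Finset.sum_sub_distrib, Finset.sum_mul]
    apply Finset.sum_congr rfl
    intro i hi
    rw [dv_of_mem hi y]
    ring
  rw [sum_dv_block, zero_mul] at h
  linarith

theorem dv_add (B : Finset (Fin n)) (x y : Fin n → ℝ) (i : Fin n) :
    dv B (fun i => x i + y i) i = dv B x i + dv B y i := by
  by_cases h : i ∈ B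
  · rw [dv_of_mem h, dv_of_mem h, dv_of_mem h, Finset.sum_add_distrib]
    ring
  · rw [dv_of_notMem h, dv_of_notMem h, dv_of_notMem h, add_zero]

theorem dv_smul (B : Finset (Fin n)) (c : ℝ) (x : Fin n → ℝ) (i : Fin n) :
    dv B (fun i => c * x i) i = c * dv B x i := by
  by_cases h : i ∈ B
  · rw [dv_of_mem h, dv_of_mem h, ← Finset.mul_sum]
    ring
  · rw [dv_of_notMem h, dv_of_notMem h, mul_zero]

/-- mean-zero vectors -/
def W0 (n : ℕ) : Submodule ℝ (EuclideanSpace ℝ (Fin n)) where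
  carrier := {c | ∑ i, c i = 0}
  add_mem' := by
    intro a b ha hb
    simp only [Set.mem_ofPred_eq] at ha hb ⊢
    simp only [PiLp.add_apply]
    rw [Finset.sum_add_distrib, ha, hb, add_zero]
  zero_mem' := by simp
  smul_mem' := by
    intro c a ha
    simp only [Set.mem_ofPred_eq] at ha ⊢
    simp only [PiLp.smul_apply, smul_eq_mul]
    rw [← Finset.mul_sum, ha, mul_zero]

/-- the one-body operator -/
noncomputable def M0 (w : Finset (Fin n) → ℝ) : W0 n →ₗ[ℝ] W0 n where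
  toFun x := ⟨WithLp.toLp 2 (fun i => ∑ B : Finset (Fin n), w B * dv B (fun j => x.1 j) i), by
    change ∑ i, ∑ B : Finset (Fin n), w B * dv B (fun j => x.1 j) i = 0
    rw [Finset.sum_comm]
    apply Finset.sum_eq_zero
    intro B _
    rw [← Finset.mul_sum, sum_dv, mul_zero]⟩
  map_add' := by
    intro x y
    apply Subtype.ext
    ext i
    change ∑ B : Finset (Fin n), w B * dv B (fun j => x.1 j + y.1 j) i =
      ∑ B : Finset (Fin n), w B * dv B (fun j => x.1 j) i +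
      ∑ B : Finset (Fin n), w B * dv B (fun j => y.1 j) i
    rw [← Finset.sum_add_distrib]
    apply Finset.sum_congr rfl
    intro B _
    rw [dv_add]
    ring
  map_smul' := by
    intro c x
    apply Subtype.ext
    ext i
    change ∑ B : Finset (Fin n), w B * dv B (fun j => c * x.1 j) i =
      c * ∑ B : Finset (Fin n), w B * dv B (fun j => x.1 j) i
    rw [Finset.mul_sum]
    apply Finset.sum_congr rfl
    intro B _
    rw [dv_smul]
    ring

theorem inner_M0 (w : Finset (Fin n) → ℝ) (x y : W0 n) :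
    inner ℝ (M0 w x) y = ∑ B : Finset (Fin n), w B *
      ∑ i, dv B (fun j => x.1 j) i * dv B (fun j => y.1 j) i := by
  have h1 : inner ℝ (M0 w x) y = ∑ i, (∑ B : Finset (Fin n), w B * dv B (fun j => x.1 j) i) *
      y.1 i := by
    change inner ℝ (M0 w x).1 y.1 = _
    rw [PiLp.inner_apply]
    apply Finset.sum_congr rfl
    intro i _
    change y.1 i * (∑ B : Finset (Fin n), w B * dv B (fun j => x.1 j) i) = _
    ring
  rw [h1]
  simp_rw [Finset.sum_mul]
  rw [Finset.sum_comm]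
  apply Finset.sum_congr rfl
  intro B _
  rw [← dv_mul_eq, Finset.mul_sum]
  apply Finset.sum_congr rfl
  intro i _
  ring

theorem M0_symm (w : Finset (Fin n) → ℝ) : (M0 w).IsSymmetric := by
  intro x y
  rw [inner_M0, real_inner_comm, inner_M0]
  apply Finset.sum_congr rfl
  intro B _
  congr 1
  apply Finset.sum_congr rfl
  intro i _
  ring

/-- the smallest eigenvalue of the one-body operator -/
theorem upb (w : Finset (Fin n) → ℝ) (hw : ∀ B, 0 ≤ w B) (d : Fin n → ℝ) (hd0 : ∑ i, d i = 0)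
    (hd : d ≠ 0) : ∃ (x : ℝ) (c : Fin n → ℝ), ∑ i, c i = 0 ∧ c ≠ 0 ∧
      (∀ i, ∑ B : Finset (Fin n), w B * dv B c i = x * c i) ∧
      x * ∑ i, d i ^ 2 ≤ ∑ B : Finset (Fin n), w B * ∑ i, dv B d i ^ 2 := by
  obtain ⟨d', hd'⟩ : ∃ d' : W0 n, d' = ⟨WithLp.toLp 2 d, hd0⟩ := ⟨_, rfl⟩
  have hne : d' ≠ 0 := by
    intro h
    apply hd
    funext i
    have h1 : d'.1 i = 0 := by rw [h]; rfl
    rw [hd'] at h1
    exact h1
  have : Nontrivial (W0 n) := ⟨⟨d', 0, hne⟩⟩
  have hev := (M0_symm w).hasEigenvalue_iInf_of_finiteDimensional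
  obtain ⟨c, hc⟩ := hev.exists_hasEigenvector
  set x : ℝ := ⨅ x : { x : W0 n // x ≠ 0 }, RCLike.re (inner ℝ (M0 w x.1) x.1) / ‖x.1‖ ^ 2 with hx
  refine ⟨x, fun i => c.1 i, c.2, ?_, ?_, ?_⟩
  · intro h
    apply hc.2
    apply Subtype.ext
    ext i
    exact congrFun h i
  · intro i
    have h1 := hc.apply_eq_smul
    have h2 : (M0 w c).1 i = (x • c : W0 n).1 i := by
      rw [h1]
      rfl
    exact h2
  · have h1 : x ≤ RCLike.re (inner ℝ (M0 w d') d') / ‖d'‖ ^ 2 := by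
      apply ciInf_le (f := fun x : { x : W0 n // x ≠ 0 } =>
        RCLike.re (inner ℝ (M0 w x.1) x.1) / ‖x.1‖ ^ 2) ?_ ⟨d', hne⟩
      refine ⟨0, ?_⟩
      rintro _ ⟨y, rfl⟩
      apply div_nonneg _ (by positivity)
      rw [inner_M0, RCLike.re_to_real]
      apply Finset.sum_nonneg
      intro B _
      apply mul_nonneg (hw B)
      apply Finset.sum_nonneg
      intro i _
      exact mul_self_nonneg _
    have h2 : ‖d'‖ ^ 2 = ∑ i, d i ^ 2 := by
      change ‖d'.1‖ ^ 2 = _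
      rw [EuclideanSpace.norm_sq_eq, hd']
      apply Finset.sum_congr rfl
      intro i _
      rw [Real.norm_eq_abs, sq_abs]
    have h3 : (0 : ℝ) < ‖d'‖ ^ 2 := by
      have := norm_pos_iff.2 hne
      positivity
    rw [le_div_iff₀ h3, inner_M0, h2] at h1
    refine h1.trans (le_of_eq ?_)
    change ∑ B : Finset (Fin n), w B * ∑ i, dv B (fun j => d'.1 j) i * dv B (fun j => d'.1 j) i = _
    apply Finset.sum_congr rfl
    intro B _
    congr 1
    apply Finset.sum_congr rfl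
    intro i _
    rw [hd', sq]

/-! ### Arithmetic -/

/-- the indicator vector of `S` minus its mean -/
noncomputable def cv (S : Finset (Fin n)) : Fin n → ℝ :=
  fun i => (if i ∈ S then 1 else 0) - (S.card : ℝ) / n

theorem sum_ind (S B : Finset (Fin n)) : ∑ i ∈ B, (if i ∈ S then (1 : ℝ) else 0) = ((B ∩ S).card : ℝ) := by
  rw [Finset.sum_ite, Finset.sum_const_zero, add_zero, Finset.sum_const, nsmul_eq_mul, mul_one,
    Finset.filter_mem_eq_inter]

theorem sum_sq_ind (S B : Finset (Fin n)) (μ : ℝ) :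
    ∑ i ∈ B, ((if i ∈ S then (1 : ℝ) else 0) - μ) ^ 2 =
      (B ∩ S).card * (1 - 2 * μ) + B.card * μ ^ 2 := by
  have h : ∀ i ∈ B, ((if i ∈ S then (1 : ℝ) else 0) - μ) ^ 2 =
      (if i ∈ S then (1 : ℝ) else 0) * (1 - 2 * μ) + μ ^ 2 := by
    intro i _
    split_ifs <;> ring
  rw [Finset.sum_congr rfl h, Finset.sum_add_distrib, ← Finset.sum_mul, sum_ind, Finset.sum_const,
    nsmul_eq_mul]

theorem sum_cv (hn : 0 < n) (S : Finset (Fin n)) : ∑ i, cv S i = 0 := by
  unfold cv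
  rw [Finset.sum_sub_distrib, sum_ind, Finset.univ_inter, Finset.sum_const, Finset.card_univ,
    Fintype.card_fin, nsmul_eq_mul]
  have : (n : ℝ) ≠ 0 := by exact_mod_cast hn.ne'
  field_simp
  ring

theorem sum_cv_sq (hn : 0 < n) (S : Finset (Fin n)) :
    ∑ i, cv S i ^ 2 = (S.card : ℝ) * (n - S.card) / n := by
  unfold cv
  rw [sum_sq_ind, Finset.univ_inter, Finset.card_univ, Fintype.card_fin]
  have : (n : ℝ) ≠ 0 := by exact_mod_cast hn.ne'
  field_simp
  ring

theorem sum_dv_cv_sq (S B : Finset (Fin n)) (hB : B.Nonempty) :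
    ∑ i, dv B (cv S) i ^ 2 = ((B ∩ S).card : ℝ) * (B.card - (B ∩ S).card) / B.card := by
  have hb : (B.card : ℝ) ≠ 0 := by
    rw [Nat.cast_ne_zero]
    exact Finset.card_ne_zero.2 hB
  have h1 : ∑ i, dv B (cv S) i ^ 2 = ∑ i ∈ B, dv B (cv S) i ^ 2 := by
    symm
    apply Finset.sum_subset (Finset.subset_univ B)
    intro i _ hi
    rw [dv_of_notMem hi]
    ring
  have h2 : ∑ j ∈ B, cv S j = (B ∩ S).card - B.card * ((S.card : ℝ) / n) := by
    unfold cv
    rw [Finset.sum_sub_distrib, sum_ind, Finset.sum_const, nsmul_eq_mul]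
  have h3 : ∀ i ∈ B, dv B (cv S) i ^ 2 =
      ((if i ∈ S then (1 : ℝ) else 0) - (B ∩ S).card / B.card) ^ 2 := by
    intro i hi
    rw [dv_of_mem hi, h2]
    unfold cv
    congr 1
    field_simp
    ring
  rw [h1, Finset.sum_congr rfl h3, sum_sq_ind]
  field_simp
  ring

theorem arith1 (a b s t : ℝ) (ha : 0 ≤ a) (hb : 0 ≤ b) (has : a ≤ s - 1) (hbt : b ≤ t)
    (ht : 1 ≤ t) : a * b * (s + t - 1) ^ 2 ≤ (s + t - 2) * (a + b) * (s * t) := by
  have h1 : a * b * (s - 1) ≤ a * t * (s - 1) := by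
    apply mul_le_mul_of_nonneg_right _ (by linarith)
    exact mul_le_mul_of_nonneg_left hbt ha
  have h2 : a * b * t ≤ (s - 1) * b * t := by
    apply mul_le_mul_of_nonneg_right _ (by linarith)
    exact mul_le_mul_of_nonneg_right has hb
  have h3 : a * b * (s + t - 1) ≤ (a + b) * (s - 1) * t := by nlinarith
  have h4 : (s + t - 1) * (s - 1) ≤ (s + t - 2) * s := by nlinarith
  have h5 : 0 ≤ s + t - 1 := by linarith
  have h6 : 0 ≤ (a + b) * t := mul_nonneg (by linarith) (by linarith)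
  calc a * b * (s + t - 1) ^ 2 = (a * b * (s + t - 1)) * (s + t - 1) := by ring
    _ ≤ ((a + b) * (s - 1) * t) * (s + t - 1) := mul_le_mul_of_nonneg_right h3 h5
    _ = ((a + b) * t) * ((s + t - 1) * (s - 1)) := by ring
    _ ≤ ((a + b) * t) * ((s + t - 2) * s) := mul_le_mul_of_nonneg_left h4 h6
    _ = (s + t - 2) * (a + b) * (s * t) := by ring

/-- the bound for one block -/
theorem block_bound (hn : 2 ≤ n) (S B : Finset (Fin n)) (h1 : ∃ i ∈ B, i ∈ S)
    (h2 : ∃ j ∈ B, j ∉ S) (hB : B ≠ Finset.univ) :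
    ∑ i, dv B (cv S) i ^ 2 ≤ (1 - 1 / ((n : ℝ) - 1) ^ 2) * ∑ i, cv S i ^ 2 := by
  obtain ⟨i₀, hi₀, hi₀'⟩ := h1
  obtain ⟨j₀, hj₀, hj₀'⟩ := h2
  rw [sum_dv_cv_sq S B ⟨i₀, hi₀⟩, sum_cv_sq (by omega)]
  -- integers
  obtain ⟨a, ha⟩ : ∃ a, a = (B ∩ S).card := ⟨_, rfl⟩
  obtain ⟨b, hb⟩ : ∃ b, b = (B \ S).card := ⟨_, rfl⟩
  obtain ⟨s, hs⟩ : ∃ s, s = S.card := ⟨_, rfl⟩
  obtain ⟨t, ht⟩ : ∃ t, t = Sᶜ.card := ⟨_, rfl⟩
  have hβ : B.card = a + b := by rw [ha, hb]; exact (Finset.card_inter_add_card_sdiff B S).symm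
  have hst : s + t = n := by
    rw [hs, ht, Finset.card_add_card_compl, Fintype.card_fin]
  have has : a ≤ s := by rw [ha, hs]; exact Finset.card_le_card Finset.inter_subset_right
  have hbt : b ≤ t := by
    rw [hb, ht]
    apply Finset.card_le_card
    intro i hi
    rw [Finset.mem_sdiff] at hi
    rw [Finset.mem_compl]
    exact hi.2
  have ha1 : 1 ≤ a := by
    rw [ha]
    exact Finset.card_pos.2 ⟨i₀, Finset.mem_inter.2 ⟨hi₀, hi₀'⟩⟩
  have hb1 : 1 ≤ b := by
    rw [hb]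
    exact Finset.card_pos.2 ⟨j₀, Finset.mem_sdiff.2 ⟨hj₀, hj₀'⟩⟩
  have hβn : a + b < n := by
    rw [← hβ]
    have h3 : B ⊂ Finset.univ := Finset.ssubset_univ_iff.2 hB
    have := Finset.card_lt_card h3
    rwa [Finset.card_univ, Fintype.card_fin] at this
  rw [← ha, ← hs, hβ]
  have hn' : (n : ℝ) = s + t := by exact_mod_cast hst.symm
  have key : (a : ℝ) * b * ((s : ℝ) + t - 1) ^ 2 ≤ ((s : ℝ) + t - 2) * (a + b) * (s * t) := by
    rcases (by omega : a + 1 ≤ s ∨ b + 1 ≤ t) with h | h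
    · apply arith1
      · exact Nat.cast_nonneg a
      · exact Nat.cast_nonneg b
      · have : ((a + 1 : ℕ) : ℝ) ≤ s := by exact_mod_cast h
        push_cast at this
        linarith
      · exact_mod_cast hbt
      · have : 1 ≤ t := hb1.trans hbt
        exact_mod_cast this
    · have h3 := arith1 b a t s (Nat.cast_nonneg b) (Nat.cast_nonneg a) (by
        have : ((b + 1 : ℕ) : ℝ) ≤ t := by exact_mod_cast h
        push_cast at this
        linarith) (by exact_mod_cast has) (by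
        have : 1 ≤ s := ha1.trans has
        exact_mod_cast this)
      have h4 : (a : ℝ) * b * ((s : ℝ) + t - 1) ^ 2 = b * a * (t + s - 1) ^ 2 := by ring
      have h5 : ((s : ℝ) + t - 2) * (a + b) * (s * t) = (t + s - 2) * (b + a) * (t * s) := by ring
      rw [h4, h5]
      exact h3
  have hn2 : (2 : ℝ) ≤ n := by exact_mod_cast hn
  have hn1 : (0 : ℝ) < (n : ℝ) - 1 := by linarith
  have hab : (0 : ℝ) < (a : ℝ) + b := by
    have : (1 : ℝ) ≤ a := by exact_mod_cast ha1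
    have : (1 : ℝ) ≤ b := by exact_mod_cast hb1
    linarith
  have e1 : ((a : ℝ) * (((a + b : ℕ) : ℝ) - a) / ((a + b : ℕ) : ℝ)) = a * b / (a + b) := by
    push_cast
    congr 1
    ring
  have e2 : (1 - 1 / ((n : ℝ) - 1) ^ 2) * ((s : ℝ) * (n - s) / n) =
      ((s : ℝ) + t - 2) * (s * t) / ((s : ℝ) + t - 1) ^ 2 := by
    have hn0 : (n : ℝ) ≠ 0 := by linarith
    have hn1' : (n : ℝ) - 1 ≠ 0 := hn1.ne'
    have : (1 - 1 / ((n : ℝ) - 1) ^ 2) * ((s : ℝ) * (n - s) / n) =
        ((n : ℝ) - 2) * (s * (n - s)) / ((n : ℝ) - 1) ^ 2 := by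
      field_simp
      ring
    rw [this, hn']
    congr 2
    ring
  rw [e1, e2, div_le_div_iff₀ hab (by rw [← hn']; positivity)]
  calc (a : ℝ) * b * ((s : ℝ) + t - 1) ^ 2 ≤ ((s : ℝ) + t - 2) * (a + b) * (s * t) := key
    _ = _ := by ring

theorem block_zero (S B : Finset (Fin n)) (h : ¬ ((∃ i ∈ B, i ∈ S) ∧ ∃ j ∈ B, j ∉ S)) :
    ∑ i, dv B (cv S) i ^ 2 = 0 := by
  by_cases hB : B.Nonempty
  · rw [sum_dv_cv_sq S B hB]
    by_cases h1 : ∃ i ∈ B, i ∈ S
    · have h2 : B ∩ S = B := by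
        rw [Finset.inter_eq_left]
        intro j hj
        by_contra hcon
        exact h ⟨h1, j, hj, hcon⟩
      rw [h2, sub_self, mul_zero, zero_div]
    · have h2 : B ∩ S = ∅ := by
        rw [Finset.eq_empty_iff_forall_notMem]
        intro i hi
        rw [Finset.mem_inter] at hi
        exact h1 ⟨i, hi.1, hi.2⟩
      rw [h2, Finset.card_empty, Nat.cast_zero, zero_mul, zero_div]
  · rw [Finset.not_nonempty_iff_eq_empty] at hB
    subst hB
    apply Finset.sum_eq_zero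
    intro i _
    rw [dv_of_notMem (Finset.notMem_empty i)]
    ring

theorem block_univ (S : Finset (Fin n)) (hn : 0 < n) :
    ∑ i, dv Finset.univ (cv S) i ^ 2 = ∑ i, cv S i ^ 2 := by
  apply Finset.sum_congr rfl
  intro i _
  rw [dv_of_mem (Finset.mem_univ i), sum_cv hn, zero_div, sub_zero]

end Pool.Agent.Helper64_FR.H47
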