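import Pool.Agent.Helper64_FR.LOW
import Pool.Agent.Helper47_FR.UpB

/-!
FR: module UP: the upper bound for the adjoint representation.
-/

open MeasureTheory Matrix Filter Topology

namespace Pool.Agent.Helper64_FR.H47

open Pool.Agent.Helper64_FR FIX LOW

variable {n : ℕ}

/-- real diagonal matrices -/
noncomputable def dg (c : Fin n → ℝ) : Matrix (Fin n) (Fin n) ℂ :=
  Matrix.diagonal fun i => (c i : ℂ)

theorem trace_dg {c : Fin n → ℝ} (h : ∑ i, c i = 0) : (dg c).trace = 0 := by
  unfold dg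
  rw [Matrix.trace_diagonal]
  exact_mod_cast h

theorem dg_add (c d : Fin n → ℝ) : dg (fun i => c i + d i) = dg c + dg d := by
  unfold dg
  rw [Matrix.diagonal_add]
  congr 1
  funext i
  push_cast
  rfl

theorem dg_smul (r : ℝ) (c : Fin n → ℝ) : dg (fun i => r * c i) = (r : ℂ) • dg c := by
  unfold dg
  rw [← Matrix.diagonal_smul]
  congr 1
  funext i
  push_cast
  rfl

theorem dg_neg (c : Fin n → ℝ) : dg (fun i => -c i) = -dg c := by
  have h := dg_smul (-1) c
  simpa using h

theorem dg_zero : dg (fun _ : Fin n => (0 : ℝ)) = 0 := by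
  unfold dg
  simp

theorem dg_sum {ι : Type*} (s : Finset ι) (f : ι → Fin n → ℝ) :
    dg (fun i => ∑ k ∈ s, f k i) = ∑ k ∈ s, dg (f k) := by
  classical
  induction s using Finset.induction_on with
  | empty => simp [dg_zero]
  | insert a s ha ih =>
    rw [Finset.sum_insert ha, ← ih, ← dg_add]
    congr 1
    funext i
    rw [Finset.sum_insert ha]

section Main

variable {α : URep n} (T : Matrix (Fin n) (Fin n) ℂ →ₗ[ℂ] (Fin α.dim → ℂ))

/-- the image as a vector of the Hilbert space -/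
noncomputable def tv (X : Matrix (Fin n) (Fin n) ℂ) : α.Sp := WithLp.toLp 2 (T X)

theorem tv_add (X Y : Matrix (Fin n) (Fin n) ℂ) : tv T (X + Y) = tv T X + tv T Y := by
  unfold tv
  rw [map_add]
  rfl

theorem tv_neg (X : Matrix (Fin n) (Fin n) ℂ) : tv T (-X) = -tv T X := by
  unfold tv
  rw [map_neg]
  rfl

theorem tv_smul (r : ℂ) (X : Matrix (Fin n) (Fin n) ℂ) : tv T (r • X) = r • tv T X := by
  unfold tv
  rw [map_smul]
  rfl

theorem tv_zero : tv T 0 = 0 := by
  unfold tv
  rw [map_zero]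
  rfl

theorem tv_sum {ι : Type*} (s : Finset ι) (f : ι → Matrix (Fin n) (Fin n) ℂ) :
    tv T (∑ k ∈ s, f k) = ∑ k ∈ s, tv T (f k) := by
  classical
  induction s using Finset.induction_on with
  | empty => simp [tv_zero]
  | insert a s ha ih => rw [Finset.sum_insert ha, Finset.sum_insert ha, tv_add, ih]

variable (hT : ∀ (g : UU n) (X : Matrix (Fin n) (Fin n) ℂ), X.trace = 0 →
      T ((g : Matrix (Fin n) (Fin n) ℂ) * X * ((g⁻¹ : UU n) : Matrix (Fin n) (Fin n) ℂ)) =
        α.mat g *ᵥ (T X))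

include hT in
theorem op_tv (g : UU n) {X : Matrix (Fin n) (Fin n) ℂ} (hX : X.trace = 0) :
    α.op g (tv T X) = tv T ((g : Matrix (Fin n) (Fin n) ℂ) * X *
      ((g⁻¹ : UU n) : Matrix (Fin n) (Fin n) ℂ)) := by
  unfold tv
  rw [hT g X hX]
  rfl

theorem P_op (B : Finset (Fin n)) (h : UU n) (hh : h ∈ UB B) : α.P B * α.op h = α.P B := by
  have h1 := op_P α B h⁻¹ ((UB B).inv_mem hh)
  have h2 := congrArg star h1
  rw [star_mul, P_star, op_inv, star_star] at h2
  exact h2

include hT in
/-- diagonal matrices constant on the block are fixed -/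
theorem P_fixed (B : Finset (Fin n)) {c : Fin n → ℝ} (h0 : ∑ i, c i = 0)
    (hc : ∀ i ∈ B, ∀ j ∈ B, c i = c j) : α.P B (tv T (dg c)) = tv T (dg c) := by
  apply P_inv
  intro h hh
  rw [op_tv T hT h (trace_dg h0)]
  congr 1
  have hh' : ∀ i j, (i ∉ B ∨ j ∉ B) →
    (h : Matrix (Fin n) (Fin n) ℂ) i j = if i = j then 1 else 0 := hh
  have h1 : (h : Matrix (Fin n) (Fin n) ℂ) * dg c = dg c * (h : Matrix (Fin n) (Fin n) ℂ) := by
    unfold dg
    ext a b
    rw [Matrix.mul_diagonal, Matrix.diagonal_mul]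
    by_cases hab : a ∈ B ∧ b ∈ B
    · rw [hc a hab.1 b hab.2, mul_comm]
    · rw [hh' a b (by tauto)]
      by_cases he : a = b
      · subst he
        rw [mul_comm]
      · rw [if_neg he, zero_mul, mul_zero]
  rw [h1, mul_assoc, ← Submonoid.coe_mul]
  have h2 : ((h * h⁻¹ : UU n) : Matrix (Fin n) (Fin n) ℂ) = 1 := by
    rw [mul_inv_cancel]
    rfl
  rw [h2, mul_one]

/-- permutation matrices of transpositions -/
noncomputable def sw (i j : Fin n) : UU n :=
  ⟨(1 : Matrix (Fin n) (Fin n) ℂ).submatrix (Equiv.swap i j) id, by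
    rw [Matrix.mem_unitaryGroup_iff, Matrix.star_eq_conjTranspose, Matrix.conjTranspose_submatrix,
      Matrix.conjTranspose_one]
    have h := Matrix.submatrix_mul_equiv (1 : Matrix (Fin n) (Fin n) ℂ)
      (1 : Matrix (Fin n) (Fin n) ℂ) (Equiv.swap i j) (Equiv.refl _) (Equiv.swap i j)
    rw [mul_one, Matrix.submatrix_one_equiv] at h
    exact h⟩

theorem sw_mem {i j : Fin n} {B : Finset (Fin n)} (hi : i ∈ B) (hj : j ∈ B) : sw i j ∈ UB B := by
  intro a b hab
  change (1 : Matrix (Fin n) (Fin n) ℂ) (Equiv.swap i j a) b = _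
  rw [Matrix.one_apply]
  have h1 : Equiv.swap i j a = b ↔ a = b := by
    rcases hab with h | h
    · have : Equiv.swap i j a = a := by
        apply Equiv.swap_apply_of_ne_of_ne
        · rintro rfl; exact h hi
        · rintro rfl; exact h hj
      rw [this]
    · have : Equiv.swap i j b = b := by
        apply Equiv.swap_apply_of_ne_of_ne
        · rintro rfl; exact h hi
        · rintro rfl; exact h hj
      constructor
      · intro h2
        have h3 := congrArg (Equiv.swap i j) h2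
        rwa [Equiv.swap_apply_self, this] at h3
      · rintro rfl
        exact this
  simp only [h1]

theorem sw_conj (i j : Fin n) (X : Matrix (Fin n) (Fin n) ℂ) :
    ((sw i j : UU n) : Matrix (Fin n) (Fin n) ℂ) * X *
      (((sw i j)⁻¹ : UU n) : Matrix (Fin n) (Fin n) ℂ) =
      X.submatrix (Equiv.swap i j) (Equiv.swap i j) := by
  have h1 : (((sw i j)⁻¹ : UU n) : Matrix (Fin n) (Fin n) ℂ) =
      (1 : Matrix (Fin n) (Fin n) ℂ).submatrix id (Equiv.swap i j) := by
    change star ((1 : Matrix (Fin n) (Fin n) ℂ).submatrix (Equiv.swap i j) id) = _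
    rw [Matrix.star_eq_conjTranspose, Matrix.conjTranspose_submatrix, Matrix.conjTranspose_one]
  rw [h1]
  change (1 : Matrix (Fin n) (Fin n) ℂ).submatrix (Equiv.swap i j) id * X *
    (1 : Matrix (Fin n) (Fin n) ℂ).submatrix id (Equiv.swap i j) = _
  have h2 := Matrix.submatrix_mul_equiv (1 : Matrix (Fin n) (Fin n) ℂ) X (Equiv.swap i j)
    (Equiv.refl _) id
  have h3 := Matrix.submatrix_mul_equiv X (1 : Matrix (Fin n) (Fin n) ℂ) (Equiv.swap i j)
    (Equiv.refl _) (Equiv.swap i j)
  rw [one_mul] at h2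
  rw [mul_one] at h3
  have h4 : (1 : Matrix (Fin n) (Fin n) ℂ).submatrix (Equiv.swap i j) id * X =
      X.submatrix (Equiv.swap i j) id := h2
  rw [h4]
  exact h3

/-- the difference of two basis vectors -/
noncomputable def df (i j : Fin n) : Fin n → ℝ :=
  fun a => (if a = i then 1 else 0) - (if a = j then 1 else 0)

theorem sum_df (i j : Fin n) : ∑ a, df i j a = 0 := by
  unfold df
  rw [Finset.sum_sub_distrib]
  simp

theorem df_swap (i j : Fin n) : (dg (df i j)).submatrix (Equiv.swap i j) (Equiv.swap i j) =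
    -dg (df i j) := by
  rw [← dg_neg]
  unfold dg
  rw [Matrix.submatrix_diagonal_equiv]
  congr 1
  funext a
  simp only [Function.comp_apply]
  congr 1
  unfold df
  have h1 : (Equiv.swap i j a = i) ↔ a = j := by
    rw [← Equiv.eq_symm_apply]
    simp
  have h2 : (Equiv.swap i j a = j) ↔ a = i := by
    rw [← Equiv.eq_symm_apply]
    simp
  simp only [h1, h2]
  ring

include hT in
theorem P_df (B : Finset (Fin n)) {i j : Fin n} (hi : i ∈ B) (hj : j ∈ B) :
    α.P B (tv T (dg (df i j))) = 0 := by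
  have h1 : α.P B (α.op (sw i j) (tv T (dg (df i j)))) = α.P B (tv T (dg (df i j))) :=
    congrArg (fun F : α.Sp →L[ℂ] α.Sp => F (tv T (dg (df i j)))) (P_op B _ (sw_mem hi hj))
  rw [op_tv T hT _ (trace_dg (sum_df i j)), sw_conj, df_swap, tv_neg, map_neg] at h1
  have h2 : (2 : ℂ) • α.P B (tv T (dg (df i j))) = 0 := by
    rw [two_smul]
    nth_rewrite 1 [← h1]
    rw [neg_add_cancel]
  exact (smul_eq_zero.1 h2).resolve_left (by norm_num)

include hT in
/-- diagonal matrices supported on the block with sum zero are killed -/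
theorem P_killed (B : Finset (Fin n)) {d : Fin n → ℝ} (h0 : ∑ i, d i = 0)
    (hd : ∀ i, i ∉ B → d i = 0) : α.P B (tv T (dg d)) = 0 := by
  by_cases hB : B.Nonempty
  · obtain ⟨j, hj⟩ := hB
    have hsum : ∑ i ∈ B, d i = 0 := by
      rw [← h0]
      exact Finset.sum_subset (Finset.subset_univ B) fun i _ hi => hd i hi
    have h1 : d = fun a => ∑ i ∈ B, d i * df i j a := by
      funext a
      unfold df
      have h2 : ∀ i ∈ B, d i * ((if a = i then (1 : ℝ) else 0) - if a = j then 1 else 0) =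
          (if a = i then d i else 0) - d i * (if a = j then 1 else 0) := by
        intro i _
        split_ifs <;> ring
      rw [Finset.sum_congr rfl h2, Finset.sum_sub_distrib, ← Finset.sum_mul, hsum, zero_mul,
        sub_zero, Finset.sum_ite_eq]
      by_cases h : a ∈ B
      · rw [if_pos h]
      · rw [if_neg h, hd a h]
    rw [h1, dg_sum, tv_sum, map_sum]
    apply Finset.sum_eq_zero
    intro i hi
    rw [dg_smul, tv_smul, map_smul, P_df T hT B hi hj, smul_zero]
  · rw [Finset.not_nonempty_iff_eq_empty] at hB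
    have h1 : d = fun _ => 0 := by
      funext i
      exact hd i (by rw [hB]; exact Finset.notMem_empty i)
    rw [h1, dg_zero, tv_zero, map_zero]

include hT in
theorem one_sub_P (B : Finset (Fin n)) {c : Fin n → ℝ} (h0 : ∑ i, c i = 0) :
    (1 - α.P B) (tv T (dg c)) = tv T (dg (dv B c)) := by
  have h1 : dg c = dg (fun i => c i - dv B c i) + dg (dv B c) := by
    rw [← dg_add]
    congr 1
    funext i
    ring
  have h2 : α.P B (tv T (dg (fun i => c i - dv B c i))) = tv T (dg (fun i => c i - dv B c i)) := by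
    apply P_fixed T hT B
    · rw [Finset.sum_sub_distrib, h0, sum_dv, sub_zero]
    · intro i hi j hj
      rw [dv_of_mem hi, dv_of_mem hj]
      ring
  have h3 : α.P B (tv T (dg (dv B c))) = 0 :=
    P_killed T hT B (sum_dv B c) fun i hi => dv_of_notMem hi c
  have h4 : (1 - α.P B) (tv T (dg c)) = tv T (dg c) - α.P B (tv T (dg c)) := rfl
  rw [h4, h1, tv_add, map_add, h2, h3]
  abel

include hT in
theorem lap_tv (w : Finset (Fin n) → ℝ) {c : Fin n → ℝ} (h0 : ∑ i, c i = 0) (x : ℝ)
    (hx : ∀ i, ∑ B : Finset (Fin n), w B * dv B c i = x * c i) :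
    lapOp α w (tv T (dg c)) = (x : ℂ) • tv T (dg c) := by
  rw [lapOp_eq, _root_.sum_apply]
  have h1 : ∀ B : Finset (Fin n), ((w B : ℂ) • (1 - α.P B)) (tv T (dg c)) =
      tv T (dg (fun i => w B * dv B c i)) := by
    intro B
    rw [dg_smul, tv_smul, ← one_sub_P T hT B h0]
    rfl
  rw [Finset.sum_congr rfl fun B _ => h1 B, ← tv_sum, ← dg_sum]
  simp_rw [hx]
  rw [dg_smul, tv_smul]

end Main

/-- eigenvalues are nonnegative -/
theorem eig_bdd (ρ : URep n) (w : Finset (Fin n) → ℝ) (hw : ∀ B, 0 ≤ w B) :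
    BddBelow {x : ℝ | ∃ v : Fin ρ.dim → ℂ, v ≠ 0 ∧ ρ.lap w *ᵥ v = (x : ℂ) • v} := by
  refine ⟨0, ?_⟩
  rintro x ⟨v, hv0, hv⟩
  let v1 : ρ.Sp := WithLp.toLp 2 v
  have hv1 : v1 ≠ 0 := by
    intro h
    apply hv0
    have : v = WithLp.ofLp v1 := rfl
    rw [this, h]
    rfl
  let u : ρ.Sp := ((‖v1‖⁻¹ : ℝ) : ℂ) • v1
  have hu : ‖u‖ = 1 := by
    have h0 : ‖v1‖ ≠ 0 := norm_ne_zero_iff.mpr hv1
    simp only [u, norm_smul, Complex.norm_real, norm_inv, norm_norm]
    exact inv_mul_cancel₀ h0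
  have hlap1 : lapOp ρ w v1 = (x : ℂ) • v1 := by
    have : lapOp ρ w v1 = WithLp.toLp 2 (ρ.lap w *ᵥ v) := rfl
    rw [this, hv]
    rfl
  have hlap : lapOp ρ w u = (x : ℂ) • u := by
    simp only [u, map_smul, hlap1]
    rw [smul_comm]
  rw [eig_eq ρ w u hu x hlap]
  exact Finset.sum_nonneg fun B _ => mul_nonneg (hw B) (by positivity)

/-- UP -/
theorem up : Stmt_UP := by
  classical
  intro n hn α hα w hw S hS hS'
  obtain ⟨T, hbij, hT⟩ := hα
  have hn0 : 0 < n := by omega
  have hn2 : (2 : ℝ) ≤ n := by exact_mod_cast hn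
  -- the test vector
  have hpos : 0 < ∑ i, cv S i ^ 2 := by
    rw [sum_cv_sq hn0]
    have h1 : 0 < S.card := Finset.card_pos.2 hS
    have h2 : S.card < n := by
      have := Finset.card_lt_card (Finset.ssubset_univ_iff.2 hS')
      rwa [Finset.card_univ, Fintype.card_fin] at this
    have h1' : (0 : ℝ) < S.card := by exact_mod_cast h1
    have h2' : (S.card : ℝ) < n := by exact_mod_cast h2
    apply div_pos _ (by linarith)
    exact mul_pos h1' (by linarith)
  have hcne : cv S ≠ 0 := by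
    intro h
    rw [h] at hpos
    simp at hpos
  obtain ⟨x, c, hc0, hc, hcx, hle⟩ := upb w hw (cv S) (sum_cv hn0 S) hcne
  have h1 : α.lamMin w ≤ x := by
    apply csInf_le (eig_bdd α w hw)
    refine ⟨T (dg c), ?_, ?_⟩
    · intro h
      obtain ⟨X, hX, huniq⟩ := hbij (0 : Fin α.dim → ℂ)
      have h2 := huniq (dg c) ⟨trace_dg hc0, h⟩
      have h3 := huniq 0 ⟨Matrix.trace_zero _ _, map_zero T⟩
      apply hc
      funext i
      have h4 : dg c i i = (0 : Matrix (Fin n) (Fin n) ℂ) i i := by rw [h2, h3]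
      unfold dg at h4
      rw [Matrix.diagonal_apply_eq, Matrix.zero_apply] at h4
      exact_mod_cast h4
    · have h2 := lap_tv T hT w hc0 x hcx
      exact congrArg WithLp.ofLp h2
  refine h1.trans ?_
  -- Rayleigh quotient
  obtain ⟨N, hN⟩ : ∃ N, N = ∑ i, cv S i ^ 2 := ⟨_, rfl⟩
  rw [← hN] at hle hpos
  have h2 : ∑ B : Finset (Fin n), w B * ∑ i, dv B (cv S) i ^ 2 ≤
      (w Finset.univ + (1 - 1 / ((n : ℝ) - 1) ^ 2) * cutW w S) * N := by
    rw [← Finset.add_sum_erase Finset.univ _ (Finset.mem_univ (Finset.univ : Finset (Fin n))),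
      block_univ S hn0, add_mul, ← hN]
    refine add_le_add le_rfl ?_
    unfold cutW
    rw [Finset.mul_sum, Finset.sum_mul,
      ← Finset.add_sum_erase Finset.univ _ (Finset.mem_univ (Finset.univ : Finset (Fin n)))]
    have hz : (1 - 1 / ((n : ℝ) - 1) ^ 2) * (if (Finset.univ : Finset (Fin n)) ≠ Finset.univ ∧
        Crosses (Finset.univ : Finset (Fin n)) S then w Finset.univ else 0) * N = 0 := by
      simp
    rw [hz, zero_add]
    apply Finset.sum_le_sum
    intro B hB
    have hB' : B ≠ Finset.univ := Finset.ne_of_mem_erase hB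
    by_cases hcr : Crosses B S
    · rw [if_pos ⟨hB', hcr⟩]
      have h3 := block_bound hn S B hcr.1 hcr.2 hB'
      rw [← hN] at h3
      calc w B * ∑ i, dv B (cv S) i ^ 2
          ≤ w B * ((1 - 1 / ((n : ℝ) - 1) ^ 2) * N) :=
            mul_le_mul_of_nonneg_left h3 (hw B)
        _ = _ := by ring
    · rw [if_neg (fun h => hcr h.2), block_zero S B hcr, mul_zero, mul_zero, zero_mul]
  exact le_of_mul_le_mul_right (hle.trans h2) hpos

end Pool.Agent.Helper64_FR.H47
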