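import Mathlib

/-!
Abstract lemmas for the derived representation: a Lipschitz estimate from powers and continuous
one-parameter groups in Banach algebras.
-/

open MeasureTheory Filter Topology

namespace Pool.Agent.Helper64_FR.H47

/-- if the powers of `u` up to `k` are at distance at most `1/2` from `1`, then `u` is at
distance at most `1/k` from `1` -/
theorem norm_sub_one_le {E : Type*} [NormedRing E] [NormedAlgebra ℝ E]
    (u : E) (k : ℕ) (hk : 1 ≤ k) (h : ∀ j ≤ k, ‖u ^ j - 1‖ ≤ 1 / 2) : ‖u - 1‖ ≤ 1 / k := by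
  have hk' : (0 : ℝ) < k := by exact_mod_cast hk
  set S : E := ∑ j ∈ Finset.range k, u ^ j with hS
  have h1 : (u - 1) * S = u ^ k - 1 := mul_geom_sum u k
  have h2 : ‖S - (k : ℝ) • (1 : E)‖ ≤ k / 2 := by
    have h3 : S - (k : ℝ) • (1 : E) = ∑ j ∈ Finset.range k, (u ^ j - 1) := by
      rw [Finset.sum_sub_distrib, ← hS, Finset.sum_const, Finset.card_range,
        Nat.cast_smul_eq_nsmul]
    rw [h3]
    calc ‖∑ j ∈ Finset.range k, (u ^ j - 1)‖ ≤ ∑ j ∈ Finset.range k, ‖u ^ j - 1‖ :=
          norm_sum_le _ _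
      _ ≤ ∑ j ∈ Finset.range k, (1 / 2 : ℝ) :=
          Finset.sum_le_sum fun j hj => h j (Finset.mem_range.1 hj).le
      _ = k / 2 := by
          rw [Finset.sum_const, Finset.card_range, nsmul_eq_mul]; ring
  have h4 : (k : ℝ) • (u - 1) = (u ^ k - 1) - (u - 1) * (S - (k : ℝ) • (1 : E)) := by
    rw [mul_sub, h1, mul_smul_comm, mul_one]; abel
  have h5 : (k : ℝ) * ‖u - 1‖ ≤ 1 / 2 + ‖u - 1‖ * (k / 2) := by
    calc (k : ℝ) * ‖u - 1‖ = ‖(k : ℝ) • (u - 1)‖ := by
          rw [norm_smul, Real.norm_of_nonneg hk'.le]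
      _ ≤ ‖u ^ k - 1‖ + ‖(u - 1) * (S - (k : ℝ) • (1 : E))‖ := by
          rw [h4]; exact norm_sub_le _ _
      _ ≤ 1 / 2 + ‖u - 1‖ * (k / 2) := by
          refine add_le_add (h k le_rfl) ((norm_mul_le _ _).trans ?_)
          exact mul_le_mul_of_nonneg_left h2 (norm_nonneg _)
  rw [le_div_iff₀ hk']
  nlinarith

/-- continuous one-parameter groups in Banach algebras -/
theorem one_param {E : Type*} [NormedRing E] [NormedAlgebra ℝ E] [CompleteSpace E]
    (V : ℝ → E) (hV : Continuous V) (h0 : V 0 = 1) (hadd : ∀ s t, V (s + t) = V s * V t) :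
    ∃ D : E, ∀ t : ℝ, V t = NormedSpace.exp (t • D) := by
  let _ : NormedAlgebra ℚ E := NormedAlgebra.restrictScalars ℚ ℝ E
  -- a short interval
  obtain ⟨a, ha, hVa⟩ : ∃ a : ℝ, 0 < a ∧ ∀ s ∈ Set.uIoc 0 a, ‖V s - 1‖ ≤ 1 / 2 := by
    have h1 : ∀ᶠ s in 𝓝 (0 : ℝ), ‖V s - 1‖ < 1 / 2 := by
      have h2 : ContinuousAt (fun s => ‖V s - 1‖) 0 := by fun_prop
      apply h2.eventually_lt continuousAt_const
      simp [h0]
    rw [Metric.eventually_nhds_iff] at h1
    obtain ⟨ε, hε, h3⟩ := h1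
    refine ⟨ε / 2, by positivity, ?_⟩
    intro s hs
    rw [Set.uIoc_of_le (by positivity)] at hs
    apply (h3 _).le
    rw [Real.dist_eq, sub_zero, abs_of_pos hs.1]
    linarith [hs.2]
  set J : E := ∫ s in (0 : ℝ)..a, V s with hJ
  have hint : ∀ b c : ℝ, IntervalIntegrable V volume b c := fun b c => hV.intervalIntegrable b c
  have h1 : ‖J - a • (1 : E)‖ ≤ 1 / 2 * a := by
    have h2 : J - a • (1 : E) = ∫ s in (0 : ℝ)..a, (V s - 1) := by
      rw [intervalIntegral.integral_sub (hint 0 a) (by simp), intervalIntegral.integral_const,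
        sub_zero]
    rw [h2]
    have h3 := intervalIntegral.norm_integral_le_of_norm_le_const hVa
    rwa [sub_zero, abs_of_pos ha] at h3
  obtain ⟨K, hK⟩ : ∃ K : E, J * K = 1 := by
    have h2 : ‖1 - a⁻¹ • J‖ < 1 := by
      have h3 : 1 - a⁻¹ • J = -(a⁻¹ • (J - a • (1 : E))) := by
        rw [smul_sub, smul_smul, inv_mul_cancel₀ ha.ne', one_smul]; abel
      rw [h3, norm_neg, norm_smul, norm_inv, Real.norm_of_nonneg ha.le]
      calc a⁻¹ * ‖J - a • (1 : E)‖ ≤ a⁻¹ * (1 / 2 * a) := by gcongr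
        _ < 1 := by field_simp; norm_num
    have h4 := isUnit_one_sub_of_norm_lt_one h2
    rw [sub_sub_cancel] at h4
    obtain ⟨u, hu⟩ := h4
    refine ⟨a⁻¹ • (↑u⁻¹ : E), ?_⟩
    rw [mul_smul_comm, ← smul_mul_assoc, ← hu, Units.mul_inv]
  have h2 : ∀ t, V t * J = (∫ s in (0 : ℝ)..(t + a), V s) - ∫ s in (0 : ℝ)..t, V s := by
    intro t
    have h3 : V t * J = ∫ s in (0 : ℝ)..a, V t * V s := by
      have := (ContinuousLinearMap.mul ℝ E (V t)).intervalIntegral_comp_comm (hint 0 a)
      simpa [hJ] using this.symm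
    rw [h3]
    simp_rw [← hadd]
    rw [intervalIntegral.integral_comp_add_left, add_zero]
    exact (intervalIntegral.integral_interval_sub_left (hint _ _) (hint _ _)).symm
  have h3 : ∀ b : ℝ, HasDerivAt (fun t => ∫ s in (0 : ℝ)..t, V s) (V b) b := fun b =>
    intervalIntegral.integral_hasDerivAt_right (hint _ _)
      (hV.stronglyMeasurableAtFilter _ _) hV.continuousAt
  have h4 : HasDerivAt V ((V a - 1) * K) 0 := by
    have h5 : ∀ t, V t = ((∫ s in (0 : ℝ)..(t + a), V s) - ∫ s in (0 : ℝ)..t, V s) * K := by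
      intro t
      rw [← h2 t, mul_assoc, hK, mul_one]
    have h6 : HasDerivAt (fun t => ∫ s in (0 : ℝ)..(t + a), V s) (V a) 0 := by
      have h7 := h3 (0 + a)
      rw [zero_add] at h7
      have := HasDerivAt.comp_add_const (0 : ℝ) a (by simpa using h7)
      simpa using this
    have h8 := h3 0
    rw [h0] at h8
    exact ((h6.sub h8).mul_const K).congr_of_eventuallyEq (Eventually.of_forall h5)
  set D : E := (V a - 1) * K with hD
  have h5 : ∀ t, HasDerivAt V (V t * D) t := by
    intro t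
    have h6 : V = fun u => V t * V (u - t) := by
      funext u
      rw [← hadd, add_sub_cancel]
    rw [h6]
    have h7 : HasDerivAt (fun u => V (u - t)) D t := by
      have := HasDerivAt.comp_sub_const t t (by simpa using h4)
      simpa using this
    have h8 := h7.const_mul (V t)
    simpa [h0] using h8
  refine ⟨D, ?_⟩
  have h6 : ∀ t : ℝ, HasDerivAt (fun t : ℝ => V t * NormedSpace.exp (t • (-D))) 0 t := by
    intro t
    have h7 := (h5 t).mul (hasDerivAt_exp_smul_const' (𝕂 := ℝ) (-D) t)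
    have h8 : V t * D * NormedSpace.exp (t • -D) + V t * (-D * NormedSpace.exp (t • -D)) = 0 := by
      rw [neg_mul, mul_neg, mul_assoc, add_neg_cancel]
    rw [h8] at h7
    exact h7
  have h7 : ∀ t : ℝ, V t * NormedSpace.exp (t • (-D)) = 1 := by
    intro t
    have h8 := is_const_of_deriv_eq_zero (fun t => (h6 t).differentiableAt)
      (fun t => (h6 t).deriv) t 0
    simpa [h0] using h8
  intro t
  have h8 : NormedSpace.exp (t • (-D)) * NormedSpace.exp (t • D) = 1 := by
    rw [← NormedSpace.exp_add_of_commute]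
    · rw [← smul_add, neg_add_cancel, smul_zero, NormedSpace.exp_zero]
    · exact ((Commute.refl D).neg_left.smul_left t).smul_right t
  calc V t = V t * (NormedSpace.exp (t • (-D)) * NormedSpace.exp (t • D)) := by rw [h8, mul_one]
    _ = NormedSpace.exp (t • D) := by rw [← mul_assoc, h7, one_mul]

end Pool.Agent.Helper64_FR.H47
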