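import Pool.Agent.Helper64_FR.Stmt
import Pool.Agent.Helper47_FR.One

/-!
FR: module DER: the derived representation.
-/

open MeasureTheory Matrix Filter Topology

open scoped Matrix.Norms.L2Operator

namespace Pool.Agent.Helper64_FR.H47

open Pool.Agent.Helper64_FR

/-- matrices -/
abbrev Mn (n : ℕ) : Type := Matrix (Fin n) (Fin n) ℂ

/-- a continuous unitary representation of `U(n)` in a `C⋆`-algebra -/
structure Rp (n : ℕ) (E : Type*) [CStarAlgebra E] where
  /-- the operators -/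
  op : UU n → E
  one : op 1 = 1
  mul : ∀ g h, op (g * h) = op g * op h
  star_op : ∀ g, star (op g) = op g⁻¹
  cont : Continuous op

section Op

variable {n : ℕ} {E : Type*} [CStarAlgebra E] (ρ : Rp n E)

theorem op_one : ρ.op 1 = 1 := ρ.one

theorem op_mul (g h : UU n) : ρ.op (g * h) = ρ.op g * ρ.op h := ρ.mul g h

theorem op_star (g : UU n) : star (ρ.op g) = ρ.op g⁻¹ := ρ.star_op g

theorem op_pow (g : UU n) (k : ℕ) : ρ.op (g ^ k) = ρ.op g ^ k := by
  induction k with
  | zero => rw [pow_zero, pow_zero, op_one]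
  | succ k ih => rw [pow_succ, pow_succ, op_mul, ih]

theorem continuous_op : Continuous ρ.op := ρ.cont

theorem norm_one_le' (E : Type*) [CStarAlgebra E] : ‖(1 : E)‖ ≤ 1 := by
  have h1 : ‖star (1 : E) * 1‖ = ‖(1 : E)‖ * ‖(1 : E)‖ := CStarRing.norm_star_mul_self
  rw [star_one, one_mul] at h1
  by_contra h
  push Not at h
  nlinarith

theorem norm_op_le (g : UU n) : ‖ρ.op g‖ ≤ 1 := by
  have h1 : ‖star (ρ.op g) * ρ.op g‖ = ‖ρ.op g‖ * ‖ρ.op g‖ := CStarRing.norm_star_mul_self
  rw [op_star, ← op_mul, inv_mul_cancel, op_one] at h1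
  have h2 := norm_one_le' E
  nlinarith [norm_nonneg (ρ.op g)]

/-- powers of unitary matrices -/
theorem norm_pow_sub_one_le (g : UU n) (j : ℕ) :
    ‖((g ^ j : UU n) : Mn n) - 1‖ ≤ j * ‖(g : Mn n) - 1‖ := by
  induction j with
  | zero => simp
  | succ j ih =>
    have h1 : ((g ^ (j + 1) : UU n) : Mn n) - 1 =
        (g : Mn n) * (((g ^ j : UU n) : Mn n) - 1) + ((g : Mn n) - 1) := by
      rw [pow_succ', Submonoid.coe_mul, mul_sub, mul_one]
      abel
    rw [h1]
    refine (norm_add_le _ _).trans ?_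
    rw [CStarRing.norm_coe_unitary_mul, Nat.cast_succ, add_mul, one_mul]
    exact add_le_add_left ih _

/-- LIP: representations are Lipschitz at the identity -/
theorem lip : ∃ C : ℝ, 0 ≤ C ∧ ∀ g : UU n, ‖ρ.op g - 1‖ ≤ C * ‖(g : Mn n) - 1‖ := by
  -- a neighbourhood of the identity
  obtain ⟨r, hr, hop⟩ : ∃ r : ℝ, 0 < r ∧ ∀ g : UU n, ‖(g : Mn n) - 1‖ ≤ r →
      ‖ρ.op g - 1‖ ≤ 1 / 2 := by
    have h1 : ContinuousAt (fun g => ‖ρ.op g - 1‖) (1 : UU n) :=
      (((continuous_op ρ).sub continuous_const).norm).continuousAt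
    have h2 : ∀ᶠ g in 𝓝 (1 : UU n), ‖ρ.op g - 1‖ < 1 / 2 := by
      apply h1.eventually_lt continuousAt_const
      simp [op_one]
    rw [nhds_subtype_eq_comap, eventually_comap] at h2
    rw [Metric.eventually_nhds_iff] at h2
    obtain ⟨ε, hε, h3⟩ := h2
    refine ⟨ε / 2, by positivity, ?_⟩
    intro g hg
    refine (h3 (y := (g : Mn n)) ?_ g rfl).le
    rw [dist_eq_norm]
    have h4 : ((1 : UU n) : Mn n) = 1 := rfl
    rw [h4]
    linarith
  refine ⟨2 / r, by positivity, ?_⟩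
  intro g
  by_cases h0 : ‖(g : Mn n) - 1‖ = 0
  · have h1 : g = 1 := by
      apply Subtype.ext
      rw [norm_eq_zero, sub_eq_zero] at h0
      exact h0
    rw [h1, op_one, sub_self, norm_zero]
    positivity
  have hpos : 0 < ‖(g : Mn n) - 1‖ := lt_of_le_of_ne (norm_nonneg _) (Ne.symm h0)
  by_cases h1 : ‖(g : Mn n) - 1‖ ≤ r
  · have h2 : 1 ≤ r / ‖(g : Mn n) - 1‖ := (one_le_div hpos).2 h1
    have h3 : 1 ≤ ⌊r / ‖(g : Mn n) - 1‖⌋₊ := Nat.le_floor (by exact_mod_cast h2)
    have h4 := norm_sub_one_le (ρ.op g) ⌊r / ‖(g : Mn n) - 1‖⌋₊ h3 (by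
      intro j hj
      rw [← op_pow]
      apply hop
      refine (norm_pow_sub_one_le g j).trans ?_
      have h5 : (j : ℝ) ≤ r / ‖(g : Mn n) - 1‖ :=
        (Nat.cast_le.2 hj).trans (Nat.floor_le (by positivity))
      rwa [le_div_iff₀ hpos] at h5)
    refine h4.trans ?_
    have h6 : r / ‖(g : Mn n) - 1‖ < ⌊r / ‖(g : Mn n) - 1‖⌋₊ + 1 := Nat.lt_floor_add_one _
    have h7 : (1 : ℝ) ≤ ⌊r / ‖(g : Mn n) - 1‖⌋₊ := by exact_mod_cast h3
    have h8 : r / ‖(g : Mn n) - 1‖ ≤ 2 * ⌊r / ‖(g : Mn n) - 1‖⌋₊ := by linarith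
    rw [div_le_iff₀ hpos] at h8
    rw [div_le_iff₀ (by linarith), div_mul_eq_mul_div, div_mul_eq_mul_div, le_div_iff₀ hr]
    linarith
  · push Not at h1
    have h2 : ‖ρ.op g - 1‖ ≤ 2 := by
      exact (norm_sub_le _ _).trans (by linarith [norm_op_le ρ g, norm_one_le' E])
    refine h2.trans ?_
    rw [div_mul_eq_mul_div, le_div_iff₀ hr]
    linarith

end Op

/-! ### One-parameter groups of unitary matrices -/

section Exp

variable {n : ℕ}

theorem exp_mem {X : Mn n} (h : star X = -X) :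
    NormedSpace.exp X ∈ Matrix.unitaryGroup (Fin n) ℂ := by
  let _ : NormedAlgebra ℚ (Mn n) := NormedAlgebra.restrictScalars ℚ ℂ _
  exact NormedSpace.exp_mem_unitary_of_mem_skewAdjoint (skewAdjoint.mem_iff.2 h)

open scoped Classical in
/-- `exp X` as a unitary matrix if `X` is skew-Hermitian -/
noncomputable def eU (X : Mn n) : UU n :=
  if h : star X = -X then ⟨NormedSpace.exp X, exp_mem h⟩ else 1

theorem eU_coe {X : Mn n} (h : star X = -X) : ((eU X : UU n) : Mn n) = NormedSpace.exp X := by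
  unfold eU
  rw [dif_pos h]

theorem skew_smul {X : Mn n} (h : star X = -X) (t : ℝ) : star (t • X) = -(t • X) := by
  rw [star_smul, h, smul_neg]
  rfl

theorem eU_add {X : Mn n} (h : star X = -X) (s t : ℝ) :
    eU ((s + t) • X) = eU (s • X) * eU (t • X) := by
  apply Subtype.ext
  rw [Submonoid.coe_mul, eU_coe (skew_smul h _), eU_coe (skew_smul h _), eU_coe (skew_smul h _),
    add_smul]
  exact Matrix.exp_add_of_commute _ _ (((Commute.refl X).smul_left s).smul_right t)

theorem eU_zero : eU (0 : Mn n) = 1 := by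
  apply Subtype.ext
  rw [eU_coe (by simp), NormedSpace.exp_zero]
  rfl

theorem hasDerivAt_eU {X : Mn n} (h : star X = -X) (t : ℝ) :
    HasDerivAt (fun t : ℝ => ((eU (t • X) : UU n) : Mn n)) (NormedSpace.exp (t • X) * X) t := by
  have h1 := hasDerivAt_exp_smul_const (𝕂 := ℝ) X t
  exact h1.congr_of_eventuallyEq (Eventually.of_forall fun s => eU_coe (skew_smul h s))

theorem continuous_eU {X : Mn n} (h : star X = -X) :
    Continuous (fun t : ℝ => (eU (t • X) : UU n)) := by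
  rw [continuous_induced_rng]
  exact continuous_iff_continuousAt.2 fun t => (hasDerivAt_eU h t).continuousAt

end Exp

section Der

variable {n : ℕ} {E : Type*} [CStarAlgebra E] (ρ : Rp n E)

/-- the derivative of the representation in the direction of the skew matrix `X` -/
noncomputable def D0 (X : Mn n) : E := deriv (fun t : ℝ => ρ.op (eU (t • X))) 0

theorem D0_spec {X : Mn n} (h : star X = -X) (t : ℝ) :
    ρ.op (eU (t • X)) = NormedSpace.exp (t • D0 ρ X) := by
  obtain ⟨D, hD⟩ := one_param (fun t : ℝ => ρ.op (eU (t • X)))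
    ((continuous_op ρ).comp (continuous_eU h))
    (by simp only [zero_smul, eU_zero, op_one])
    (fun s t => by rw [eU_add h, op_mul])
  have h1 : HasDerivAt (fun t : ℝ => ρ.op (eU (t • X))) D 0 := by
    have h2 := hasDerivAt_exp_smul_const (𝕂 := ℝ) D 0
    rw [zero_smul, NormedSpace.exp_zero, one_mul] at h2
    exact h2.congr_of_eventuallyEq (Eventually.of_forall hD)
  have h3 : D0 ρ X = D := h1.deriv
  rw [h3]
  exact hD t

theorem hasDerivAt_D0 {X : Mn n} (h : star X = -X) :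
    HasDerivAt (fun t : ℝ => ρ.op (eU (t • X))) (D0 ρ X) 0 := by
  have h2 := hasDerivAt_exp_smul_const (𝕂 := ℝ) (D0 ρ X) 0
  rw [zero_smul, NormedSpace.exp_zero, one_mul] at h2
  exact h2.congr_of_eventuallyEq (Eventually.of_forall (D0_spec ρ h))

/-- CHAIN: the chain rule at the identity -/
theorem chain {X : Mn n} (h : star X = -X) (γ : ℝ → UU n) (h0 : γ 0 = 1)
    (hγ : HasDerivAt (fun t => (γ t : Mn n)) X 0) :
    HasDerivAt (fun t => ρ.op (γ t)) (D0 ρ X) 0 := by
  obtain ⟨C, hC, hlip⟩ := lip ρ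
  obtain ⟨β, hβ⟩ : ∃ β : ℝ → UU n, β = fun t => (eU (t • X))⁻¹ * γ t := ⟨_, rfl⟩
  have h1 : HasDerivAt (fun t => (β t : Mn n)) 0 0 := by
    have h2 : ∀ t, (β t : Mn n) = star ((eU (t • X) : UU n) : Mn n) * (γ t : Mn n) := by
      intro t
      rw [hβ]
      rfl
    have h3 := (hasDerivAt_eU h 0).star.mul hγ
    rw [zero_smul, NormedSpace.exp_zero, one_mul, eU_zero, h, h0] at h3
    have h4 : -X * ((1 : UU n) : Mn n) + star ((1 : UU n) : Mn n) * X = 0 := by
      have h5 : ((1 : UU n) : Mn n) = 1 := rfl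
      rw [h5, star_one, mul_one, one_mul, neg_add_cancel]
    rw [h4] at h3
    exact h3.congr_of_eventuallyEq (Eventually.of_forall h2)
  have hβ0 : β 0 = 1 := by
    rw [hβ]
    simp only [zero_smul, eU_zero, h0, inv_one, one_mul]
  have h5 : HasDerivAt (fun t => ρ.op (β t)) 0 0 := by
    rw [hasDerivAt_iff_isLittleO] at h1 ⊢
    simp only [hβ0, smul_zero, sub_zero, op_one] at h1 ⊢
    have h6 : (fun t => ρ.op (β t) - 1) =O[𝓝 0] (fun t => ((β t : Mn n)) - 1) := by
      apply Asymptotics.IsBigO.of_bound C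
      exact Eventually.of_forall fun t => hlip (β t)
    exact h6.trans_isLittleO h1
  have h6 : ∀ t, ρ.op (γ t) = ρ.op (eU (t • X)) * ρ.op (β t) := by
    intro t
    rw [← op_mul, hβ]
    simp only [mul_inv_cancel_left]
  have h7 := (hasDerivAt_D0 ρ h).mul h5
  rw [hβ0, op_one, mul_one, mul_zero, add_zero] at h7
  exact h7.congr_of_eventuallyEq (Eventually.of_forall h6)

theorem skew_add {X Y : Mn n} (hX : star X = -X) (hY : star Y = -Y) :
    star (X + Y) = -(X + Y) := by
  rw [star_add, hX, hY, neg_add]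

theorem one_coe : ((1 : UU n) : Mn n) = 1 := rfl

theorem D0_add {X Y : Mn n} (hX : star X = -X) (hY : star Y = -Y) :
    D0 ρ (X + Y) = D0 ρ X + D0 ρ Y := by
  have h0 : HasDerivAt (fun t : ℝ => ((eU (t • X) * eU (t • Y) : UU n) : Mn n)) (X + Y) 0 := by
    have h1 := (hasDerivAt_eU hX 0).mul (hasDerivAt_eU hY 0)
    simp only [zero_smul, NormedSpace.exp_zero, one_mul, eU_zero, one_coe, mul_one] at h1
    exact h1
  have h1 := chain ρ (skew_add hX hY) (fun t => eU (t • X) * eU (t • Y))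
    (by simp only [zero_smul, eU_zero, one_mul]) h0
  have h2 := (hasDerivAt_D0 ρ hX).mul (hasDerivAt_D0 ρ hY)
  simp only [zero_smul, eU_zero, op_one, one_mul, mul_one] at h2
  refine h1.unique (h2.congr_of_eventuallyEq (Eventually.of_forall fun t => ?_))
  exact op_mul ρ _ _

theorem D0_smul {X : Mn n} (hX : star X = -X) (c : ℝ) : D0 ρ (c • X) = c • D0 ρ X := by
  have h1 := hasDerivAt_D0 ρ (skew_smul hX c)
  have h2 := hasDerivAt_exp_smul_const (𝕂 := ℝ) (c • D0 ρ X) 0
  rw [zero_smul, NormedSpace.exp_zero, one_mul] at h2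
  refine h1.unique (h2.congr_of_eventuallyEq (Eventually.of_forall fun t => ?_))
  simp only
  rw [smul_smul, D0_spec ρ hX, ← smul_smul]

theorem D0_neg {X : Mn n} (hX : star X = -X) : D0 ρ (-X) = -D0 ρ X := by
  have h := D0_smul ρ hX (-1)
  rwa [neg_one_smul, neg_one_smul] at h

theorem D0_zero : D0 ρ (0 : Mn n) = 0 := by
  have h := D0_smul ρ (X := (0 : Mn n)) (by simp) 0
  rwa [zero_smul, zero_smul] at h

theorem eU_inv {X : Mn n} (hX : star X = -X) (t : ℝ) : (eU (t • X))⁻¹ = eU ((-t) • X) := by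
  rw [inv_eq_iff_mul_eq_one, ← eU_add hX, add_neg_cancel, zero_smul, eU_zero]

theorem D0_star {X : Mn n} (hX : star X = -X) : star (D0 ρ X) = -D0 ρ X := by
  have h1 := (hasDerivAt_D0 ρ hX).star
  have h2 := hasDerivAt_exp_smul_const (𝕂 := ℝ) (-D0 ρ X) 0
  rw [zero_smul, NormedSpace.exp_zero, one_mul] at h2
  refine h1.unique (h2.congr_of_eventuallyEq (Eventually.of_forall fun t => ?_))
  simp only
  rw [op_star, eU_inv hX, D0_spec ρ hX, smul_neg, neg_smul]

theorem skew_conj (g : UU n) {X : Mn n} (hX : star X = -X) :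
    star ((g : Mn n) * X * star (g : Mn n)) = -((g : Mn n) * X * star (g : Mn n)) := by
  rw [star_mul, star_mul, star_star, hX, neg_mul, mul_neg, mul_assoc]

theorem D0_conj (g : UU n) {X : Mn n} (hX : star X = -X) :
    ρ.op g * D0 ρ X = D0 ρ ((g : Mn n) * X * star (g : Mn n)) * ρ.op g := by
  have h0 : HasDerivAt (fun t : ℝ => ((g * eU (t • X) * g⁻¹ : UU n) : Mn n))
      ((g : Mn n) * X * star (g : Mn n)) 0 := by
    have h1 := ((hasDerivAt_eU hX 0).const_mul (g : Mn n)).mul_const (star (g : Mn n))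
    simp only [zero_smul, NormedSpace.exp_zero, one_mul] at h1
    exact h1
  have h1 := chain ρ (skew_conj g hX) (fun t => g * eU (t • X) * g⁻¹)
    (by simp only [zero_smul, eU_zero, mul_one, mul_inv_cancel]) h0
  have h2 := ((hasDerivAt_D0 ρ hX).const_mul (ρ.op g)).mul_const (ρ.op g⁻¹)
  have h3 : D0 ρ ((g : Mn n) * X * star (g : Mn n)) = ρ.op g * D0 ρ X * ρ.op g⁻¹ := by
    refine h1.unique (h2.congr_of_eventuallyEq (Eventually.of_forall fun t => ?_))
    simp only
    rw [op_mul, op_mul]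
  rw [h3, mul_assoc _ (ρ.op g⁻¹), ← op_mul, inv_mul_cancel, op_one, mul_one]

/-! ### Complexification -/

/-- the skew part -/
noncomputable def sk (Z : Mn n) : Mn n := (1 / 2 : ℂ) • (Z - star Z)

/-- the other skew part: `Z = sk Z + I • tk Z` -/
noncomputable def tk (Z : Mn n) : Mn n := (-(Complex.I / 2) : ℂ) • (Z + star Z)

theorem sk_skew (Z : Mn n) : star (sk Z) = -sk Z := by
  unfold sk
  rw [star_smul, star_sub, star_star, ← smul_neg, neg_sub]
  congr 1
  simp

theorem tk_skew (Z : Mn n) : star (tk Z) = -tk Z := by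
  unfold tk
  rw [star_smul, star_add, star_star, ← neg_smul, add_comm]
  congr 1
  simp [neg_div]

theorem sk_add_tk (Z : Mn n) : sk Z + Complex.I • tk Z = Z := by
  unfold sk tk
  rw [smul_smul]
  have h : Complex.I * -(Complex.I / 2) = 1 / 2 := by
    have := Complex.I_mul_I
    linear_combination (-1 / 2) * this
  rw [h, ← smul_add, sub_add_add_cancel, ← two_smul ℂ Z, smul_smul]
  norm_num

theorem sk_eq {A B : Mn n} (hA : star A = -A) (hB : star B = -B) :
    sk (A + Complex.I • B) = A := by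
  unfold sk
  rw [star_add, star_smul, hA, hB]
  simp only [RCLike.star_def, Complex.conj_I, neg_smul, smul_neg, neg_neg]
  rw [show A + Complex.I • B - (-A + Complex.I • B) = (2 : ℂ) • A by rw [two_smul]; abel,
    smul_smul]
  norm_num

theorem tk_eq {A B : Mn n} (hA : star A = -A) (hB : star B = -B) :
    tk (A + Complex.I • B) = B := by
  unfold tk
  rw [star_add, star_smul, hA, hB]
  simp only [RCLike.star_def, Complex.conj_I, neg_smul, smul_neg, neg_neg]
  rw [show A + Complex.I • B + (-A + Complex.I • B) = (2 * Complex.I : ℂ) • B by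
    rw [mul_smul, two_smul]; abel, smul_smul, ← neg_smul]
  have h : -(Complex.I / 2 * (2 * Complex.I)) = 1 := by
    have := Complex.I_mul_I
    linear_combination (-1) * this
  rw [h, one_smul]

/-- the complexified derivative, as a function -/
noncomputable def Dc (Z : Mn n) : E := D0 ρ (sk Z) + Complex.I • D0 ρ (tk Z)

theorem Dc_eq {A B : Mn n} (hA : star A = -A) (hB : star B = -B) :
    Dc ρ (A + Complex.I • B) = D0 ρ A + Complex.I • D0 ρ B := by
  unfold Dc
  rw [sk_eq hA hB, tk_eq hA hB]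

theorem Dc_skew {A : Mn n} (hA : star A = -A) : Dc ρ A = D0 ρ A := by
  have h := Dc_eq ρ hA (B := (0 : Mn n)) (by simp)
  rwa [smul_zero, add_zero, D0_zero, smul_zero, add_zero] at h

theorem Dc_add (Z W : Mn n) : Dc ρ (Z + W) = Dc ρ Z + Dc ρ W := by
  have h1 : Z + W = (sk Z + sk W) + Complex.I • (tk Z + tk W) := by
    conv_lhs => rw [← sk_add_tk Z, ← sk_add_tk W]
    rw [smul_add]
    abel
  rw [h1, Dc_eq ρ (skew_add (sk_skew Z) (sk_skew W)) (skew_add (tk_skew Z) (tk_skew W)),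
    D0_add ρ (sk_skew Z) (sk_skew W), D0_add ρ (tk_skew Z) (tk_skew W), smul_add]
  unfold Dc
  abel

theorem calg {M : Type*} [AddCommGroup M] [Module ℂ M] (c : ℂ) (s t : M) :
    c • (s + Complex.I • t) = ((c.re : ℂ) • s + (((-c.im : ℝ) : ℂ)) • t) +
      Complex.I • ((c.re : ℂ) • t + (c.im : ℂ) • s) := by
  have hc : c = (c.re : ℂ) + c.im * Complex.I := (Complex.re_add_im c).symm
  have h2 : Complex.I * Complex.I = -1 := Complex.I_mul_I
  obtain ⟨a, b, ha, hb⟩ : ∃ a b : ℂ, a = c.re ∧ b = c.im := ⟨_, _, rfl, rfl⟩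
  rw [Complex.ofReal_neg, ← ha, ← hb]
  rw [← ha, ← hb] at hc
  rw [hc]
  match_scalars
  · ring
  · linear_combination b * h2

theorem Dc_smul (c : ℂ) (Z : Mn n) : Dc ρ (c • Z) = c • Dc ρ Z := by
  have hs := sk_skew Z
  have ht := tk_skew Z
  have h1 : c • Z = (c.re • sk Z + (-c.im) • tk Z) + Complex.I • (c.re • tk Z + c.im • sk Z) := by
    conv_lhs => rw [← sk_add_tk Z]
    rw [calg]
    rfl
  rw [h1, Dc_eq ρ (skew_add (skew_smul hs _) (skew_smul ht _))
    (skew_add (skew_smul ht _) (skew_smul hs _)), D0_add ρ (skew_smul hs _) (skew_smul ht _),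
    D0_add ρ (skew_smul ht _) (skew_smul hs _), D0_smul ρ hs, D0_smul ρ hs, D0_smul ρ ht,
    D0_smul ρ ht]
  unfold Dc
  rw [calg]
  rfl

/-- the complexified derivative -/
noncomputable def DL : (Mn n) →ₗ[ℂ] E where
  toFun := Dc ρ
  map_add' := Dc_add ρ
  map_smul' := Dc_smul ρ

theorem Dc_star (Z : Mn n) : star (Dc ρ Z) = Dc ρ (star Z) := by
  have h1 : star Z = -sk Z + Complex.I • tk Z := by
    conv_lhs => rw [← sk_add_tk Z]
    rw [star_add, star_smul, sk_skew, tk_skew]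
    simp
  rw [h1, Dc_eq ρ (by rw [star_neg, sk_skew]) (tk_skew Z), D0_neg ρ (sk_skew Z)]
  unfold Dc
  rw [star_add, star_smul, D0_star ρ (sk_skew Z), D0_star ρ (tk_skew Z)]
  simp

theorem Dc_conj (g : UU n) (Z : Mn n) :
    ρ.op g * Dc ρ Z = Dc ρ ((g : Mn n) * Z * star (g : Mn n)) * ρ.op g := by
  have h1 : (g : Mn n) * Z * star (g : Mn n) = (g : Mn n) * sk Z * star (g : Mn n) +
      Complex.I • ((g : Mn n) * tk Z * star (g : Mn n)) := by
    conv_lhs => rw [← sk_add_tk Z]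
    rw [mul_add, add_mul, mul_smul_comm, smul_mul_assoc]
  rw [h1, Dc_eq ρ (skew_conj g (sk_skew Z)) (skew_conj g (tk_skew Z)), add_mul, smul_mul_assoc,
    ← D0_conj ρ g (sk_skew Z), ← D0_conj ρ g (tk_skew Z)]
  unfold Dc
  rw [mul_add, mul_smul_comm]

theorem Dc_comm_skew {Y : Mn n} (hY : star Y = -Y) (Z : Mn n) :
    Dc ρ Y * Dc ρ Z - Dc ρ Z * Dc ρ Y = Dc ρ (Y * Z - Z * Y) := by
  have h1 := (hasDerivAt_D0 ρ hY).mul_const (Dc ρ Z)
  have h2 : HasDerivAt (fun t : ℝ => ((eU (t • Y) : UU n) : Mn n) * Z *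
      star ((eU (t • Y) : UU n) : Mn n)) (Y * Z - Z * Y) 0 := by
    have h3 := ((hasDerivAt_eU hY 0).mul_const Z).mul (hasDerivAt_eU hY 0).star
    simp only [zero_smul, NormedSpace.exp_zero, one_mul, eU_zero, one_coe, mul_one, star_one,
      hY, mul_neg, ← sub_eq_add_neg] at h3
    exact h3
  have h4 : HasDerivAt (fun t : ℝ => DL ρ (((eU (t • Y) : UU n) : Mn n) * Z *
      star ((eU (t • Y) : UU n) : Mn n))) (DL ρ (Y * Z - Z * Y)) 0 := by
    have h5 := ((LinearMap.toContinuousLinearMap (DL ρ)).restrictScalars ℝ).hasFDerivAt.comp_hasDerivAt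
      (0 : ℝ) h2
    exact h5
  have h5 := h4.mul (hasDerivAt_D0 ρ hY)
  have h6 : D0 ρ Y * Dc ρ Z = Dc ρ (Y * Z - Z * Y) + Dc ρ Z * D0 ρ Y := by
    have h7 := h1.unique (h5.congr_of_eventuallyEq (Eventually.of_forall fun t => ?_))
    · rw [h7]
      simp only [zero_smul, eU_zero, op_one, one_coe, star_one, mul_one, one_mul]
      rfl
    · exact Dc_conj ρ (eU (t • Y)) Z
  rw [Dc_skew ρ hY, h6, add_sub_cancel_right]

theorem Dc_comm (Z W : Mn n) : Dc ρ Z * Dc ρ W - Dc ρ W * Dc ρ Z = Dc ρ (Z * W - W * Z) := by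
  have h1 : Z * W - W * Z = (sk Z * W - W * sk Z) + Complex.I • (tk Z * W - W * tk Z) := by
    conv_lhs => rw [← sk_add_tk Z]
    rw [add_mul, mul_add, smul_mul_assoc, mul_smul_comm, smul_sub]
    abel
  rw [h1, Dc_add, Dc_smul]
  rw [← Dc_comm_skew ρ (sk_skew Z), ← Dc_comm_skew ρ (tk_skew Z)]
  have h2 : Dc ρ Z = Dc ρ (sk Z) + Complex.I • Dc ρ (tk Z) := by
    conv_lhs => rw [← sk_add_tk Z]
    rw [Dc_add, Dc_smul]
  rw [h2, add_mul, mul_add, smul_mul_assoc, mul_smul_comm, smul_sub]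
  abel

theorem Dc_exp (X : Mn n) (g : UU n) (hX : star X = -X)
    (hg : (g : Mn n) = NormedSpace.exp X) : ρ.op g = NormedSpace.exp (Dc ρ X) := by
  have h1 : g = eU ((1 : ℝ) • X) := by
    apply Subtype.ext
    rw [hg, eU_coe (skew_smul hX 1), one_smul]
  rw [h1, D0_spec ρ hX, one_smul, Dc_skew ρ hX]

end Der

/-! ### The module -/

section Final

variable {n : ℕ} (ρ : URep n)

theorem mat_one : ρ.mat 1 = 1 := by
  unfold URep.mat
  rw [map_one]
  rfl

theorem mat_mul (g h : UU n) : ρ.mat (g * h) = ρ.mat g * ρ.mat h := by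
  unfold URep.mat
  rw [map_mul]
  rfl

theorem mat_star (g : UU n) : star (ρ.mat g) = ρ.mat g⁻¹ := by
  unfold URep.mat
  rw [map_inv]
  rfl

theorem uop_one : ρ.op 1 = 1 := by
  unfold URep.op
  rw [mat_one, map_one]

theorem uop_mul (g h : UU n) : ρ.op (g * h) = ρ.op g * ρ.op h := by
  unfold URep.op
  rw [mat_mul, map_mul]

theorem uop_star (g : UU n) : star (ρ.op g) = ρ.op g⁻¹ := by
  unfold URep.op
  rw [← map_star, mat_star]

theorem continuous_uop : Continuous ρ.op := by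
  have h1 : Continuous (fun g => ρ.mat g) := continuous_subtype_val.comp ρ.cont
  have h2 : Continuous (Matrix.toEuclideanCLM (n := Fin ρ.dim) (𝕜 := ℂ)).toAlgEquiv.toLinearMap :=
    LinearMap.continuous_of_finiteDimensional _
  exact h2.comp h1

/-- a unitary representation as a representation in the `C⋆`-algebra of operators -/
noncomputable def toRp : Rp n (ρ.Sp →L[ℂ] ρ.Sp) where
  op := ρ.op
  one := uop_one ρ
  mul := uop_mul ρ
  star_op := uop_star ρ
  cont := continuous_uop ρ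

/-- DER -/
theorem isDer : IsDer ρ (DL (toRp ρ)) where
  star_eq := Dc_star (toRp ρ)
  conj_eq := Dc_conj (toRp ρ)
  comm_eq := Dc_comm (toRp ρ)
  exp_eq := Dc_exp (toRp ρ)

end Final

theorem der : Stmt_DER := fun _ ρ => ⟨DL (toRp ρ), isDer ρ⟩

end Pool.Agent.Helper64_FR.H47
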